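import Pool.Agent.Helper56K9.CP.Base

set_option autoImplicit false

/-! # [COL] common vertices of two slabs give an open vertical column -/

namespace Pool.Agent.Helper56K9.CP

open Pool.Agent.Helper98K9.CP MeasureTheory ProbabilityTheory
open scoped ENNReal NNReal

/-- the event that the column of `w` is open -/
def ColE (w : Vt) (h h' : ℤ) : Set Cf := {ω | Col ω w h h'}

theorem col_eq (w : Vt) (h h' : ℤ) :
    ColE w h h' = {ω : Cf | ∀ e ∈ (Finset.Ico h h').image (fun t => (((w, t), true) : Ed)),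
      ω e = true} := by
  ext ω
  simp only [ColE, Col, Set.mem_ofPred_eq, Finset.mem_image, Finset.mem_Ico]
  constructor
  · rintro h1 e ⟨t, ⟨ht, ht'⟩, rfl⟩
    exact h1 t ht ht'
  · intro h1 t ht ht'
    exact h1 _ ⟨t, ⟨ht, ht'⟩, rfl⟩

theorem P_col (p : ℝ≥0) (hp : p ≤ 1) (w : Vt) (h h' : ℤ) :
    (PP Ed p hp).real (ColE w h h') = (p : ℝ) ^ (h' - h).toNat := by
  rw [col_eq, all_open, Finset.card_image_of_injective, Int.card_Ico]
  intro s t hst
  simpa using hst

theorem meas_allopen (ι : Type) [Countable ι] (D : Finset ι) :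
    MeasurableSet {ω : ι → Bool | ∀ e ∈ D, ω e = true} := by
  have h1 : {ω : ι → Bool | ∀ e ∈ D, ω e = true} = ⋂ e ∈ D, {ω | ω e = true} := by
    ext ω
    simp
  rw [h1]
  refine Finset.measurableSet_biInter _ fun e _ => ?_
  exact measurableSet_eq_fun (measurable_pi_apply e) measurable_const

theorem meas_col (w : Vt) (h h' : ℤ) : MeasurableSet (ColE w h h') := by
  rw [col_eq]
  exact meas_allopen Ed _

/-- no column of `S` is open -/
def NoCol (S : Finset Vt) (h h' : ℤ) : Set Cf := {ω | ∀ w ∈ S, ¬ Col ω w h h'}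

theorem meas_nocol (S : Finset Vt) (h h' : ℤ) : MeasurableSet (NoCol S h h') := by
  have h1 : NoCol S h h' = ⋂ w ∈ S, (ColE w h h')ᶜ := by
    ext ω
    simp [NoCol, ColE]
  rw [h1]
  exact Finset.measurableSet_biInter _ fun w _ => (meas_col w h h').compl

theorem dep_nocol (S : Finset Vt) (h h' : ℤ) :
    Dep {e : Ed | e.2 = true ∧ e.1.1 ∈ S} (NoCol S h h') := by
  intro ω ω' h1 h2 w hw h3
  refine h2 w hw fun t ht ht' => ?_
  rw [h1 ((w, t), true) ⟨rfl, hw⟩]
  exact h3 t ht ht'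

theorem P_nocol (hI : S_IND) (p : ℝ≥0) (hp : p ≤ 1) (S : Finset Vt) (h h' : ℤ) :
    (PP Ed p hp).real (NoCol S h h') = (1 - (p : ℝ) ^ (h' - h).toNat) ^ S.card := by
  classical
  induction S using Finset.induction_on with
  | empty =>
    have : NoCol ∅ h h' = Set.univ := by
      ext ω
      simp [NoCol]
    rw [this]
    simp
  | insert w S hw ih =>
    have h1 : NoCol (insert w S) h h' = (ColE w h h')ᶜ ∩ NoCol S h h' := by
      ext ω
      simp [NoCol, ColE]
    rw [h1, hI Ed p hp {e : Ed | e.2 = true ∧ e.1.1 = w} {e : Ed | e.2 = true ∧ e.1.1 ∈ S}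
      _ _ ?_ ?_ (dep_nocol S h h') (meas_col w h h').compl (meas_nocol S h h'), ih,
      Finset.card_insert_of_notMem hw, pow_succ, probReal_compl_eq_one_sub (meas_col w h h'),
      P_col, mul_comm]
    · rw [Set.disjoint_left]
      rintro e ⟨_, he⟩ ⟨_, he'⟩
      rw [he] at he'
      exact hw he'
    · intro ω ω' h2 h3 h4
      refine h3 fun t ht ht' => ?_
      rw [h2 ((w, t), true) ⟨rfl, rfl⟩]
      exact h4 t ht ht'

/-- the edges which are not vertical edges of level `L` -/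
def NV (L : ℤ) : Set Ed := {e | ¬ (e.2 = true ∧ e.1.1.1 = L)}

theorem St_congr {b K R : ℕ} {ξ ξ' : Cf} {L : ℤ} {z w : Vt} (hz : L + K + 1 ≤ z.1)
    (h : ∀ e ∈ NV L, ξ e = ξ' e) (h1 : St b K R ξ z w) : St b K R ξ' z w := by
  obtain ⟨h2, h3⟩ := h1
  refine ⟨?_, ?_⟩
  · refine Cn_dep b _ _ _ ξ ξ' (fun e he => h e ?_) h2
    rintro ⟨_, he2⟩
    obtain ⟨⟨j, hj, hj2⟩, _⟩ := he.1
    rw [par_iter] at hj2
    have := congrArg Prod.fst hj2
    simp only at this
    omega
  · rw [← h ((w, 0), false) (fun hh => by simpa using hh.1)]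
    exact h3

theorem Rs_congr {b K R i : ℕ} {ξ ξ' : Cf} {z w : Vt}
    (h : ∀ e ∈ NV (z.1 - (K + 1) * i), ξ e = ξ' e) (h1 : w ∈ Rs b K R ξ i z) :
    w ∈ Rs b K R ξ' i z := by
  obtain ⟨h2, h3⟩ := h1
  refine ⟨h2, fun t ht => St_congr ?_ h (h3 t ht)⟩
  rw [par_iter] at h2 ⊢
  have h4 := congrArg Prod.fst h2
  simp only at h4 ⊢
  push_cast at h4 ⊢
  nlinarith [h4, Int.natCast_nonneg t, Int.natCast_nonneg K]

theorem Rs_congr_iff {b K R i : ℕ} {ξ ξ' : Cf} {z : Vt}
    (h : ∀ e ∈ NV (z.1 - (K + 1) * i), ξ e = ξ' e) :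
    Rs b K R ξ i z = Rs b K R ξ' i z := by
  ext w
  exact ⟨Rs_congr h, Rs_congr fun e he => (h e he).symm⟩

theorem sh_congr {L : ℤ} {ω ω' : Cf} (h : ∀ e ∈ NV L, ω e = ω' e) (k : ℤ) :
    ∀ e ∈ NV L, sh k ω e = sh k ω' e := by
  intro e he
  exact h ((e.1.1, e.1.2 + k), e.2) he

theorem meas_sh (k : ℤ) : Measurable (sh k) := by
  refine measurable_pi_lambda _ fun e => ?_
  exact measurable_pi_apply _

theorem meas_St (hM : S_MEAS) (b K R : ℕ) (z w : Vt) : MeasurableSet {ξ : Cf | St b K R ξ z w} := by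
  have h1 : {ξ : Cf | St b K R ξ z w} = {ξ | Cn b ξ (Blk b K R z 0) (z, 0) (par b w, 0)} ∩
      {ξ : Cf | ξ ((w, 0), false) = true} := rfl
  rw [h1]
  exact (hM b _ _ _).1.inter (measurableSet_eq_fun (measurable_pi_apply _) measurable_const)

theorem meas_Rs (hM : S_MEAS) (b K R i : ℕ) (z w : Vt) :
    MeasurableSet {ξ : Cf | w ∈ Rs b K R ξ i z} := by
  by_cases hw : (par b)^[(K + 1) * i] w = z
  · have h1 : {ξ : Cf | w ∈ Rs b K R ξ i z} = ⋂ t ∈ Finset.range i,
        {ξ | St b K R ξ ((par b)^[(K + 1) * (t + 1)] w) ((par b)^[(K + 1) * t] w)} := by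
      ext ξ
      simp [Rs, hw]
    rw [h1]
    exact Finset.measurableSet_biInter _ fun t _ => meas_St hM _ _ _ _ _
  · have h1 : {ξ : Cf | w ∈ Rs b K R ξ i z} = ∅ := by
      ext ξ
      simp [Rs, hw]
    rw [h1]
    exact MeasurableSet.empty

/-- [COL] -/
theorem col (hI : S_IND) (hM : S_MEAS) : S_COL := by
  classical
  intro b hb K R p hp i z h h' n _
  set q : ℝ := 1 - (p : ℝ) ^ (h' - h).toNat with hq
  have hp1 : (p : ℝ) ≤ 1 := by exact_mod_cast hp
  have hq0 : 0 ≤ q := by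
    have := pow_le_one₀ (n := (h' - h).toNat) p.2 hp1
    rw [hq]
    exact sub_nonneg.2 this
  have hq1 : q ≤ 1 := by
    have : 0 ≤ (p : ℝ) ^ (h' - h).toNat := pow_nonneg p.2 _
    rw [hq]
    linarith
  set L : ℤ := z.1 - (K + 1) * i with hL
  have hFfin := desc_finite (by omega : 1 ≤ b) ((K + 1) * i) z
  set F : Finset Vt := hFfin.toFinset with hF
  set A : Cf → Set Vt := fun ω => Rs b K R (sh h ω) i z ∩ Rs b K R (sh h' ω) i z with hA
  have hAF : ∀ ω, A ω ⊆ (F : Set Vt) := by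
    intro ω w hw
    rw [hF, Set.Finite.coe_toFinset]
    exact hw.1.1
  have hAL : ∀ ω, ∀ w ∈ A ω, w.1 = L := by
    intro ω w hw
    have h2 := hw.1.1
    rw [par_iter] at h2
    have h4 := congrArg Prod.fst h2
    simp only at h4
    push_cast at h4
    rw [hL]
    linarith
  have hAdep : ∀ ω ω' : Cf, (∀ e ∈ NV L, ω e = ω' e) → A ω = A ω' := by
    intro ω ω' h1
    simp only [hA]
    rw [Rs_congr_iff (sh_congr h1 h), Rs_congr_iff (sh_congr h1 h')]
  have hAmem : ∀ w, MeasurableSet {ω | w ∈ A ω} := by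
    intro w
    have : {ω | w ∈ A ω} = (sh h) ⁻¹' {ξ | w ∈ Rs b K R ξ i z} ∩
      (sh h') ⁻¹' {ξ | w ∈ Rs b K R ξ i z} := rfl
    rw [this]
    exact (meas_sh h (meas_Rs hM b K R i z w)).inter (meas_sh h' (meas_Rs hM b K R i z w))
  have hAS : ∀ S : Finset Vt, MeasurableSet {ω | A ω = (S : Set Vt)} := by
    intro S
    have : {ω | A ω = (S : Set Vt)} = ⋂ w : Vt, {ω | w ∈ A ω ↔ w ∈ S} := by
      ext ω
      simp [Set.ext_iff]
    rw [this]
    refine MeasurableSet.iInter fun w => ?_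
    by_cases hw : w ∈ S
    · simpa [hw] using hAmem w
    · have h1 : {ω | w ∈ A ω ↔ w ∈ S} = {ω | w ∈ A ω}ᶜ := by
        ext ω
        simp [hw]
      rw [h1]
      exact (hAmem w).compl
  -- the event
  have hsub : {ω | n ≤ (A ω).ncard ∧ ∀ w ∈ A ω, ¬ Col ω w h h'} ⊆
      ⋃ S ∈ F.powerset.filter (fun S => n ≤ S.card),
        ({ω | A ω = (S : Set Vt)} ∩ NoCol S h h') := by
    rintro ω ⟨h1, h2⟩
    have hfin : (A ω).Finite := F.finite_toSet.subset (hAF ω)
    rw [Set.mem_iUnion₂]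
    refine ⟨hfin.toFinset, ?_, ?_, ?_⟩
    · rw [Finset.mem_filter, Finset.mem_powerset]
      refine ⟨?_, ?_⟩
      · intro w hw
        rw [Set.Finite.mem_toFinset] at hw
        exact hAF ω hw
      · rw [← Set.ncard_eq_toFinset_card _ hfin]
        exact h1
    · simp
    · intro w hw
      rw [Set.Finite.mem_toFinset] at hw
      exact h2 w hw
  have hS : ∀ S ∈ F.powerset.filter (fun S => n ≤ S.card),
      (PP Ed p hp).real ({ω | A ω = (S : Set Vt)} ∩ NoCol S h h') ≤
        (PP Ed p hp).real {ω | A ω = (S : Set Vt)} * q ^ n := by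
    intro S hSm
    rw [Finset.mem_filter] at hSm
    by_cases hne : {ω | A ω = (S : Set Vt)} = ∅
    · rw [hne]
      simp
    · obtain ⟨ω₀, hω₀⟩ := Set.nonempty_iff_ne_empty.2 hne
      have hSL : ∀ w ∈ S, w.1 = L := by
        intro w hw
        refine hAL ω₀ w ?_
        rw [hω₀]
        exact hw
      rw [hI Ed p hp (NV L) {e : Ed | e.2 = true ∧ e.1.1 ∈ S} _ _ ?_ ?_ (dep_nocol S h h')
        (hAS S) (meas_nocol S h h'), P_nocol hI]
      · exact mul_le_mul_of_nonneg_left (pow_le_pow_of_le_one hq0 hq1 hSm.2) measureReal_nonneg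
      · rw [Set.disjoint_left]
        rintro e he ⟨he1, he2⟩
        exact he ⟨he1, hSL _ he2⟩
      · intro ω ω' h1 h2
        change A ω' = _
        rw [← hAdep ω ω' h1]
        exact h2
  calc (PP Ed p hp).real {ω | n ≤ (A ω).ncard ∧ ∀ w ∈ A ω, ¬ Col ω w h h'}
      ≤ (PP Ed p hp).real (⋃ S ∈ F.powerset.filter (fun S => n ≤ S.card),
        ({ω | A ω = (S : Set Vt)} ∩ NoCol S h h')) := measureReal_mono hsub (measure_ne_top _ _)
    _ ≤ ∑ S ∈ F.powerset.filter (fun S => n ≤ S.card),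
        (PP Ed p hp).real ({ω | A ω = (S : Set Vt)} ∩ NoCol S h h') :=
          measureReal_biUnion_finset_le _ _
    _ ≤ ∑ S ∈ F.powerset.filter (fun S => n ≤ S.card),
        (PP Ed p hp).real {ω | A ω = (S : Set Vt)} * q ^ n := Finset.sum_le_sum hS
    _ = (∑ S ∈ F.powerset.filter (fun S => n ≤ S.card),
        (PP Ed p hp).real {ω | A ω = (S : Set Vt)}) * q ^ n := by rw [Finset.sum_mul]
    _ = (PP Ed p hp).real (⋃ S ∈ F.powerset.filter (fun S => n ≤ S.card),
        {ω | A ω = (S : Set Vt)}) * q ^ n := by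
          rw [measureReal_biUnion_finset]
          · intro S _ T _ hST
            rw [Function.onFun, Set.disjoint_left]
            intro ω h1 h2
            apply hST
            have h3 : A ω = (S : Set Vt) := h1
            have h4 : A ω = (T : Set Vt) := h2
            exact Finset.coe_injective (h3.symm.trans h4)
          · intro S _
            exact hAS S
    _ ≤ 1 * q ^ n := mul_le_mul_of_nonneg_right measureReal_le_one (pow_nonneg hq0 n)
    _ = q ^ n := one_mul _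

end Pool.Agent.Helper56K9.CP
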