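import Pool.Agent.Helper98K9.CP.St

set_option autoImplicit false

/-! # Finite blocks, dependence, probability that finitely many edges are open -/

namespace Pool.Agent.Helper56K9.CP

open Pool.Agent.Helper98K9.CP MeasureTheory ProbabilityTheory
open scoped ENNReal NNReal

theorem par_iter (b j : ℕ) (x : Vt) : (par b)^[j] x = (x.1 + j, x.2 / b ^ j) := by
  induction j with
  | zero => simp
  | succ j ih =>
    rw [Function.iterate_succ_apply', ih, par]
    ext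
    · push_cast
      ring
    · simp only
      rw [Nat.div_div_eq_div_mul, pow_succ]

theorem desc_finite {b : ℕ} (hb : 1 ≤ b) (j : ℕ) (z : Vt) :
    {x : Vt | (par b)^[j] x = z}.Finite := by
  refine Set.Finite.subset
    (Set.Finite.prod (Set.finite_singleton (z.1 - j)) (Set.finite_Iio ((z.2 + 1) * b ^ j))) ?_
  intro x hx
  have hx' : (par b)^[j] x = z := hx
  rw [par_iter] at hx'
  have h1 := congrArg Prod.fst hx'
  have h2 := congrArg Prod.snd hx'
  simp only at h1 h2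
  refine ⟨?_, ?_⟩
  · rw [Set.mem_singleton_iff]
    omega
  · rw [Set.mem_Iio]
    exact (Nat.div_lt_iff_lt_mul (pow_pos hb j)).1 (by omega)

theorem Blk_finite {b : ℕ} (hb : 1 ≤ b) (K R : ℕ) (z : Vt) (h : ℤ) : (Blk b K R z h).Finite := by
  refine Set.Finite.subset (Set.Finite.prod
    (Set.Finite.biUnion (Set.finite_Iic K) fun j _ => desc_finite hb j z)
    (Set.finite_Icc (h - R) (h + R))) ?_
  rintro y ⟨⟨j, hj, hy⟩, h1, h2⟩
  exact ⟨Set.mem_biUnion hj hy, h1, h2⟩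

theorem edg_finite {b : ℕ} {W : Set Vx} (hW : W.Finite) : (edg b W).Finite :=
  (hW.prod (Set.finite_univ (α := Bool))).subset fun e he => ⟨he.1, Set.mem_univ _⟩

theorem og_congr {b : ℕ} {W : Set Vx} {ω ω' : Cf} (h : ∀ e ∈ edg b W, ω e = ω' e) :
    og b ω W = og b ω' W := by
  ext x y
  simp only [og]
  constructor
  · rintro ⟨h0, h1, h2, c, h3⟩
    refine ⟨h0, h1, h2, c, ?_⟩
    rcases h3 with ⟨h3, h4⟩ | ⟨h3, h4⟩
    · exact Or.inl ⟨h3, by rw [← h (x, c) ⟨h1, by rw [h3]; exact h2⟩]; exact h4⟩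
    · exact Or.inr ⟨h3, by rw [← h (y, c) ⟨h2, by rw [h3]; exact h1⟩]; exact h4⟩
  · rintro ⟨h0, h1, h2, c, h3⟩
    refine ⟨h0, h1, h2, c, ?_⟩
    rcases h3 with ⟨h3, h4⟩ | ⟨h3, h4⟩
    · exact Or.inl ⟨h3, by rw [h (x, c) ⟨h1, by rw [h3]; exact h2⟩]; exact h4⟩
    · exact Or.inr ⟨h3, by rw [h (y, c) ⟨h2, by rw [h3]; exact h1⟩]; exact h4⟩

theorem Cn_dep (b : ℕ) (W : Set Vx) (x y : Vx) : Dep (edg b W) {ω | Cn b ω W x y} := by
  intro ω ω' h h1
  have h2 := og_congr h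
  change (og b ω' W).Reachable x y
  rw [← h2]
  exact h1

theorem og_mono {b : ℕ} {W W' : Set Vx} {ω ω' : Cf} (hW : W ⊆ W')
    (h : ∀ e ∈ edg b W, ω e = true → ω' e = true) : og b ω W ≤ og b ω' W' := by
  intro x y h1
  obtain ⟨h0, h1, h2, c, h3⟩ := h1
  refine ⟨h0, hW h1, hW h2, c, ?_⟩
  rcases h3 with ⟨h3, h4⟩ | ⟨h3, h4⟩
  · exact Or.inl ⟨h3, h (x, c) ⟨h1, by rw [h3]; exact h2⟩ h4⟩
  · exact Or.inr ⟨h3, h (y, c) ⟨h2, by rw [h3]; exact h1⟩ h4⟩

theorem Cn_mono {b : ℕ} {W W' : Set Vx} {ω ω' : Cf} (hW : W ⊆ W')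
    (h : ∀ e ∈ edg b W, ω e = true → ω' e = true) {x y : Vx} (h1 : Cn b ω W x y) :
    Cn b ω' W' x y :=
  h1.mono (og_mono hW h)

theorem bern_true (p : ℝ≥0) (hp : p ≤ 1) :
    (PMF.bernoulli p hp).toMeasure {true} = (p : ℝ≥0∞) := by
  rw [PMF.toMeasure_apply_singleton _ _ (MeasurableSet.singleton true)]
  simp [PMF.bernoulli_apply]

/-- finitely many edges are open -/
theorem all_open (ι : Type) (p : ℝ≥0) (hp : p ≤ 1) (D : Finset ι) :
    (PP ι p hp).real {ω | ∀ e ∈ D, ω e = true} = (p : ℝ) ^ D.card := by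
  have h1 : {ω : ι → Bool | ∀ e ∈ D, ω e = true} = Set.pi (D : Set ι) (fun _ => {true}) := by
    ext ω
    simp [Set.mem_pi]
  rw [Measure.real, h1, PP, Measure.infinitePi_pi _ (fun _ _ => MeasurableSet.singleton true)]
  simp only [bern_true, Finset.prod_const]
  simp

end Pool.Agent.Helper56K9.CP
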