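import Pool.Agent.Helper56K9.CP.Base

set_option autoImplicit false

/-! # [BK1] finite energy -/

namespace Pool.Agent.Helper56K9.CP

open Pool.Agent.Helper98K9.CP MeasureTheory ProbabilityTheory
open scoped ENNReal NNReal

/-- local finiteness -/
theorem nbr_finite {b : ℕ} (hb : 1 ≤ b) (ω : Cf) (W : Set Vx) (v : Vx) :
    {v' | (og b ω W).Adj v v'}.Finite := by
  refine Set.Finite.subset (s := (Set.range fun c : Bool => hd b (v, c)) ∪
    ({x : Vt | (par b)^[1] x = v.1} ×ˢ {v.2}) ∪ {(v.1, v.2 - 1)}) ?_ ?_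
  · exact ((Set.finite_range _).union ((desc_finite hb 1 v.1).prod (Set.finite_singleton _))).union
      (Set.finite_singleton _)
  · rintro v' ⟨_, _, _, c, h⟩
    rcases h with ⟨h, _⟩ | ⟨h, _⟩
    · exact Or.inl (Or.inl ⟨c, h⟩)
    · cases c with
      | false =>
        refine Or.inl (Or.inr ⟨?_, ?_⟩)
        · have := congrArg Prod.fst h
          simpa [hd] using this
        · have := congrArg Prod.snd h
          simpa [hd] using this
      | true =>
        refine Or.inr ?_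
        have h1 := congrArg Prod.fst h
        have h2 := congrArg Prod.snd h
        simp only [hd, if_true] at h1 h2
        rw [Set.mem_singleton_iff]
        ext1
        · exact h1
        · simp only
          omega

theorem last_exit {b : ℕ} {ω : Cf} {W B : Set Vx} {x : Vx} (hx : x ∈ B) {y : Vx}
    (h : Cn b ω W x y) (hy : y ∉ B) :
    ∃ v v', v ∈ B ∧ Cn b ω W x v ∧ (og b ω W).Adj v v' ∧ v' ∈ W \ B ∧
      Cn b ω (W \ B) v' y := by
  have h' : Relation.ReflTransGen (og b ω W).Adj x y :=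
    (SimpleGraph.reachable_iff_reflTransGen x y).1 h
  clear h
  induction h' with
  | refl => exact absurd hx hy
  | @tail u z h1 h2 ih =>
    by_cases hu : u ∈ B
    · exact ⟨u, z, hu, (SimpleGraph.reachable_iff_reflTransGen x u).2 h1, h2, ⟨h2.2.2.1, hy⟩,
        SimpleGraph.Reachable.refl _⟩
    · obtain ⟨v, v', g1, g2, g3, g4, g5⟩ := ih hu
      refine ⟨v, v', g1, g2, g3, g4, SimpleGraph.Reachable.trans g5 ?_⟩
      refine SimpleGraph.Adj.reachable ?_
      exact ⟨h2.1, ⟨h2.2.1, hu⟩, ⟨h2.2.2.1, hy⟩, h2.2.2.2⟩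

theorem exit_inf {b : ℕ} (hb : 1 ≤ b) {ω : Cf} {W B : Set Vx} (hB : B.Finite) {x : Vx}
    (hx : x ∈ B) (h : (cl b ω W x).Infinite) :
    ∃ v v', v ∈ B ∧ Cn b ω W x v ∧ (og b ω W).Adj v v' ∧ v' ∈ W \ B ∧
      (cl b ω (W \ B) v').Infinite := by
  by_contra hcon
  push Not at hcon
  apply h
  set N : Set Vx := {v' | ∃ v ∈ B, Cn b ω W x v ∧ (og b ω W).Adj v v' ∧ v' ∈ W \ B} with hN
  have hNf : N.Finite := by
    refine Set.Finite.subset (Set.Finite.biUnion hB fun v _ => nbr_finite hb ω W v) ?_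
    rintro v' ⟨v, h1, _, h2, _⟩
    exact Set.mem_biUnion h1 h2
  refine Set.Finite.subset (hB.union (Set.Finite.biUnion hNf
    (t := fun v' => cl b ω (W \ B) v') ?_)) ?_
  · rintro v' ⟨v, h1, h2, h3, h4⟩
    exact hcon v v' h1 h2 h3 h4
  · intro y hy
    by_cases hyB : y ∈ B
    · exact Or.inl hyB
    · obtain ⟨v, v', g1, g2, g3, g4, g5⟩ := last_exit hx hy hyB
      exact Or.inr (Set.mem_biUnion (⟨v, g1, g2, g3, g4⟩ : v' ∈ N) g5)

/-- open all the edges of `D` -/
noncomputable def opn (D : Set Ed) (ω : Cf) : Cf := by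
  classical exact fun e => if e ∈ D then true else ω e

theorem opn_mem {D : Set Ed} {ω : Cf} {e : Ed} (h : e ∈ D) : opn D ω e = true := by
  simp [opn, h]

theorem opn_notMem {D : Set Ed} {ω : Cf} {e : Ed} (h : e ∉ D) : opn D ω e = ω e := by
  simp [opn, h]

theorem opn_le {D : Set Ed} {ω : Cf} {e : Ed} (h : ω e = true) : opn D ω e = true := by
  by_cases he : e ∈ D
  · exact opn_mem he
  · rw [opn_notMem he, h]

theorem opn_eq {D : Set Ed} {ω : Cf} (h : ∀ e ∈ D, ω e = true) : opn D ω = ω := by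
  funext e
  by_cases he : e ∈ D
  · rw [opn_mem he, h e he]
  · exact opn_notMem he

theorem meas_opn (D : Set Ed) : Measurable (opn D) := by
  refine measurable_pi_lambda _ fun e => ?_
  by_cases he : e ∈ D
  · have : (fun ω : Cf => opn D ω e) = fun _ => true := by
      funext ω
      exact opn_mem he
    rw [this]
    exact measurable_const
  · have : (fun ω : Cf => opn D ω e) = fun ω => ω e := by
      funext ω
      exact opn_notMem he
    rw [this]
    exact measurable_pi_apply e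

/-- three given points in distinct infinite clusters -/
def ThreeAt (b : ℕ) (W : Set Vx) (x : Fin 3 → Vx) : Set Cf :=
  {ω | (∀ k, (cl b ω W (x k)).Infinite) ∧ ∀ k l, k ≠ l → ¬ Cn b ω W (x k) (x l)}

theorem tri_of_three {b : ℕ} (hb : 1 ≤ b) {W B : Set Vx} (hB : B.Finite)
    {x : Fin 3 → Vx} (hx : ∀ k, x k ∈ B) {ω : Cf} (h : ω ∈ ThreeAt b W x) :
    Tri b W B (opn (edg b B) ω) := by
  obtain ⟨h1, h2⟩ := h
  choose v v' g1 g2 g3 g4 g5 using fun k => exit_inf hb hB (hx k) (h1 k)
  have hog : og b (opn (edg b B) ω) (W \ B) = og b ω (W \ B) := by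
    refine og_congr fun e he => opn_notMem ?_
    intro he'
    exact he.1.2 he'.1
  have hle : ∀ {x y : Vx}, Cn b ω W x y → Cn b (opn (edg b B) ω) W x y := fun {x y} hxy =>
    Cn_mono subset_rfl (fun e _ he => opn_le he) hxy
  refine ⟨fun e he => opn_mem he, v', g4, ?_, ?_, ?_⟩
  · intro k
    exact ⟨v k, g1 k, hle (g3 k).reachable⟩
  · intro k
    have : cl b (opn (edg b B) ω) (W \ B) (v' k) = cl b ω (W \ B) (v' k) := by
      simp only [cl, Cn, hog]
    rw [this]
    exact g5 k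
  · intro k l hkl hc
    have hc' : Cn b ω (W \ B) (v' k) (v' l) := by
      rw [Cn, hog] at hc
      exact hc
    have hc'' : Cn b ω W (v' k) (v' l) := Cn_mono Set.sdiff_subset (fun e _ he => he) hc'
    apply h2 k l hkl
    exact ((g2 k).trans (g3 k).reachable).trans (hc''.trans (((g2 l).trans (g3 l).reachable).symm))

theorem meas_tri (hM : S_MEAS) (b : ℕ) (W B : Set Vx) : MeasurableSet {ω : Cf | Tri b W B ω} := by
  have h1 : {ω : Cf | Tri b W B ω} = (⋂ e ∈ edg b B, {ω : Cf | ω e = true}) ∩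
      ⋃ x : Fin 3 → Vx, ({ω : Cf | ∀ k, x k ∈ W \ B} ∩
        ((⋂ k, ⋃ y ∈ B, {ω : Cf | Cn b ω W y (x k)}) ∩
        ((⋂ k, {ω : Cf | (cl b ω (W \ B) (x k)).Infinite}) ∩
        (⋂ k, ⋂ l, ⋂ (_ : k ≠ l), {ω : Cf | Cn b ω (W \ B) (x k) (x l)}ᶜ)))) := by
    ext ω
    simp only [Tri, Set.mem_ofPred_eq, Set.mem_inter_iff, Set.mem_iInter, Set.mem_iUnion,
      Set.mem_compl_iff, exists_prop]
  rw [h1]
  refine MeasurableSet.inter ?_ ?_
  · exact MeasurableSet.biInter (Set.to_countable _) fun e _ =>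
      measurableSet_eq_fun (measurable_pi_apply e) measurable_const
  · refine MeasurableSet.iUnion fun x => ?_
    refine (MeasurableSet.const _).inter (MeasurableSet.inter ?_ (MeasurableSet.inter ?_ ?_))
    · exact MeasurableSet.iInter fun k => MeasurableSet.biUnion (Set.to_countable _)
        fun y _ => (hM b W y (x k)).1
    · exact MeasurableSet.iInter fun k => (hM b (W \ B) (x k) (x k)).2
    · exact MeasurableSet.iInter fun k => MeasurableSet.iInter fun l =>
        MeasurableSet.iInter fun _ => (hM b (W \ B) (x k) (x l)).1.compl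

theorem three_eq (b : ℕ) (W : Set Vx) :
    {ω : Cf | Three b W ω} = ⋃ x : Fin 3 → Vx, ThreeAt b W x := by
  ext ω
  simp only [Three, ThreeAt, Set.mem_ofPred_eq, Set.mem_iUnion]

theorem Blk_mono_l {b : ℕ} {l l' : ℕ} (h : l ≤ l') :
    Blk b l l ((l : ℤ), 0) 0 ⊆ Blk b l' l' ((l' : ℤ), 0) 0 := by
  rintro y ⟨⟨j, hj, hy⟩, h1, h2⟩
  obtain ⟨d, rfl⟩ := Nat.exists_eq_add_of_le h
  refine ⟨⟨j + d, by omega, ?_⟩, ?_, ?_⟩
  · rw [add_comm j d, Function.iterate_add_apply, hy, par_iter]
    simp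
  · push_cast
    omega
  · push_cast
    omega

theorem mem_Blk_l {b : ℕ} (hb : 2 ≤ b) {y : Vx} (hy : y ∈ WC) :
    ∃ l : ℕ, y ∈ Blk b l l ((l : ℤ), 0) 0 := by
  obtain ⟨⟨k, m⟩, t⟩ := y
  have hk : 0 ≤ k := hy
  obtain ⟨k, rfl⟩ := Int.eq_ofNat_of_zero_le hk
  refine ⟨k + m + t.natAbs, ⟨m + t.natAbs, by omega, ?_⟩, ?_, ?_⟩
  · rw [par_iter]
    simp only
    rw [Nat.div_eq_of_lt]
    · push_cast
      rw [add_assoc]
    · calc m < 2 ^ m := Nat.lt_two_pow_self
        _ ≤ b ^ m := Nat.pow_le_pow_left hb m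
        _ ≤ b ^ (m + t.natAbs) := Nat.pow_le_pow_right (by omega) (by omega)
  · simp only
    have h1 : -t ≤ |t| := neg_le_abs t
    push_cast
    rw [zero_sub]
    have : (0 : ℤ) ≤ k := Int.natCast_nonneg k
    have : (0 : ℤ) ≤ m := Int.natCast_nonneg m
    linarith
  · simp only
    have h1 : t ≤ |t| := le_abs_self t
    push_cast
    rw [zero_add]
    have : (0 : ℤ) ≤ k := Int.natCast_nonneg k
    have : (0 : ℤ) ≤ m := Int.natCast_nonneg m
    linarith

/-- [BK1] -/
theorem bk1 (hI : S_IND) (hM : S_MEAS) : S_BK1 := by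
  intro b hb p hp hp0 h
  -- choose three deterministic points
  obtain ⟨x, hx⟩ : ∃ x : Fin 3 → Vx, 0 < (PP Ed p hp).real (ThreeAt b WC x) := by
    by_contra hcon
    push Not at hcon
    have h0 : ∀ x, (PP Ed p hp) (ThreeAt b WC x) = 0 := by
      intro x
      have := le_antisymm (hcon x) measureReal_nonneg
      rwa [measureReal_eq_zero_iff] at this
    have h1 : (PP Ed p hp) {ω | Three b WC ω} = 0 := by
      rw [three_eq]
      exact measure_iUnion_null h0
    rw [Measure.real, h1] at h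
    simp at h
  have hxW : ∀ k, x k ∈ WC := by
    intro k
    have hne : (ThreeAt b WC x).Nonempty := by
      by_contra hcon
      rw [Set.not_nonempty_iff_eq_empty] at hcon
      rw [hcon] at hx
      simp at hx
    obtain ⟨ω, h1, _⟩ := hne
    by_contra hk
    apply h1 k
    refine (Set.finite_singleton (x k)).subset ?_
    intro y hy
    have hy' : Relation.ReflTransGen (og b ω WC).Adj (x k) y :=
      (SimpleGraph.reachable_iff_reflTransGen _ _).1 hy
    rcases Relation.ReflTransGen.cases_head hy' with h2 | ⟨z, h2, _⟩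
    · exact h2.symm
    · exact absurd h2.2.1 hk
  obtain ⟨l, hl⟩ : ∃ l : ℕ, ∀ k, x k ∈ Blk b l l ((l : ℤ), 0) 0 := by
    choose l hl using fun k => mem_Blk_l hb (hxW k)
    refine ⟨Finset.univ.sup l, fun k => Blk_mono_l (Finset.le_sup (Finset.mem_univ k)) (hl k)⟩
  refine ⟨l, ?_⟩
  set B : Set Vx := Blk b l l ((l : ℤ), 0) 0 with hB
  have hBf : B.Finite := Blk_finite (by omega) _ _ _ _
  have hDf : (edg b B).Finite := edg_finite hBf
  set Q : Set Cf := (opn (edg b B)) ⁻¹' {ω | Tri b WC B ω} with hQ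
  have hQm : MeasurableSet Q := meas_opn _ (meas_tri hM b WC B)
  have hsub : ThreeAt b WC x ⊆ Q := fun ω hω => tri_of_three (by omega) hBf hl hω
  have hQpos : 0 < (PP Ed p hp).real Q := lt_of_lt_of_le hx (measureReal_mono hsub)
  have hDO : MeasurableSet {ω : Cf | ∀ e ∈ hDf.toFinset, ω e = true} := by
    have h1 : {ω : Cf | ∀ e ∈ hDf.toFinset, ω e = true} =
        ⋂ e ∈ hDf.toFinset, {ω | ω e = true} := by
      ext ω
      simp
    rw [h1]
    exact Finset.measurableSet_biInter _ fun e _ =>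
      measurableSet_eq_fun (measurable_pi_apply e) measurable_const
  have hind := hI Ed p hp (edg b B) (edg b B)ᶜ {ω : Cf | ∀ e ∈ hDf.toFinset, ω e = true} Q
    disjoint_compl_right ?_ ?_ hDO hQm
  · have hsub2 : {ω : Cf | ∀ e ∈ hDf.toFinset, ω e = true} ∩ Q ⊆ {ω | Tri b WC B ω} := by
      rintro ω ⟨h1, h2⟩
      have h3 : opn (edg b B) ω = ω := opn_eq fun e he => h1 e (hDf.mem_toFinset.2 he)
      have h4 : Tri b WC B (opn (edg b B) ω) := h2
      rw [h3] at h4
      exact h4
    refine lt_of_lt_of_le ?_ (measureReal_mono hsub2)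
    rw [hind, all_open]
    exact mul_pos (pow_pos (NNReal.coe_pos.2 hp0) _) hQpos
  · intro ω ω' h1 h2 e he
    rw [← h1 e (hDf.mem_toFinset.1 he)]
    exact h2 e he
  · intro ω ω' h1 h2
    have h3 : opn (edg b B) ω = opn (edg b B) ω' := by
      funext e
      by_cases he : e ∈ edg b B
      · rw [opn_mem he, opn_mem he]
      · rw [opn_notMem he, opn_notMem he]
        exact h1 e he
    change Tri b WC B (opn (edg b B) ω')
    rw [← h3]
    exact h2

end Pool.Agent.Helper56K9.CP
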