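import Pool.Agent.Helper98K9.CP.St2
import Pool.Agent.Helper98K9.CP.Basic
import Pool.Agent.Helper56K9.CP.Base

set_option autoImplicit false

/-! # [CONV] uniqueness gives the criterion -/

namespace Pool.Agent.Helper56K9.CP

open Pool.Agent.Helper98K9.CP MeasureTheory ProbabilityTheory Filter
open scoped ENNReal NNReal

theorem P_Cn_tr (hR : S_REIDX) (hM : S_MEAS) {b : ℕ} (p : ℝ≥0) (hp : p ≤ 1) {σ : Vt ≃ Vt}
    (hσ : ∀ y, σ (par b y) = par b (σ y)) (s : ℤ) (W : Set Vx) (x y : Vx) :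
    (PP Ed p hp).real {ω | Cn b ω (tr σ s '' W) (tr σ s x) (tr σ s y)} =
      (PP Ed p hp).real {ω | Cn b ω W x y} := by
  have h1 := hR Ed Ed p hp (te σ s) (te_inj σ s)
  have h2 := h1.measure_preimage (s := {ω | Cn b ω W x y}) (hM b W x y).1.nullMeasurableSet
  rw [measureReal_def, measureReal_def, ← h2]
  congr 2
  ext ω
  exact (Cn_tr hσ s ω W x y).symm

theorem P_inf_tr (hR : S_REIDX) (hM : S_MEAS) {b : ℕ} (p : ℝ≥0) (hp : p ≤ 1) {σ : Vt ≃ Vt}
    (hσ : ∀ y, σ (par b y) = par b (σ y)) (s : ℤ) (W : Set Vx) (x : Vx) :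
    (PP Ed p hp).real {ω | (cl b ω (tr σ s '' W) (tr σ s x)).Infinite} =
      (PP Ed p hp).real {ω | (cl b ω W x).Infinite} := by
  have h1 := hR Ed Ed p hp (te σ s) (te_inj σ s)
  have h2 := h1.measure_preimage (s := {ω | (cl b ω W x).Infinite}) (hM b W x x).2.nullMeasurableSet
  rw [measureReal_def, measureReal_def, ← h2]
  congr 2
  ext ω
  exact (clInf_tr hσ s ω W x).symm

/-- the exhausting blocks -/
def BN (b N : ℕ) : Set Vx := Blk b (2 * N) N ((N : ℤ), 0) 0

theorem BN_mono {b N N' : ℕ} (h : N ≤ N') : BN b N ⊆ BN b N' := by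
  obtain ⟨d, rfl⟩ := Nat.exists_eq_add_of_le h
  rintro y ⟨⟨j, hj, hy⟩, h1, h2⟩
  refine ⟨⟨d + j, by omega, ?_⟩, ?_, ?_⟩
  · rw [Function.iterate_add_apply, hy, par_iter]
    simp
  · push_cast
    omega
  · push_cast
    omega

theorem BN_mem {b : ℕ} (hb : 2 ≤ b) (y : Vx) : ∃ N, y ∈ BN b N := by
  obtain ⟨⟨k, m⟩, t⟩ := y
  refine ⟨k.natAbs + m + t.natAbs, ⟨((k.natAbs + m + t.natAbs : ℕ) - k : ℤ).toNat, by omega, ?_⟩,
    ?_, ?_⟩
  · rw [par_iter]
    simp only
    rw [Nat.div_eq_of_lt]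
    · ext1
      · simp only
        omega
      · rfl
    · calc m < 2 ^ m := Nat.lt_two_pow_self
        _ ≤ b ^ m := Nat.pow_le_pow_left hb m
        _ ≤ b ^ ((k.natAbs + m + t.natAbs : ℕ) - k : ℤ).toNat :=
          Nat.pow_le_pow_right (by omega) (by omega)
  · simp only
    omega
  · simp only
    omega

theorem Cn_BN {b : ℕ} (hb : 2 ≤ b) {ω : Cf} {L : Set ℤ} {x y : Vx} (h : Cn b ω (TW L) x y) :
    ∃ N, Cn b ω (BN b N) x y := by
  have h' : Relation.ReflTransGen (og b ω (TW L)).Adj x y :=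
    (SimpleGraph.reachable_iff_reflTransGen x y).1 h
  clear h
  induction h' with
  | refl => exact ⟨0, SimpleGraph.Reachable.refl _⟩
  | @tail u v _ h2 ih =>
    obtain ⟨N, hN⟩ := ih
    obtain ⟨N1, h1⟩ := BN_mem hb u
    obtain ⟨N2, h3⟩ := BN_mem hb v
    refine ⟨max N (max N1 N2), ?_⟩
    refine (Cn_mono (BN_mono (le_max_left _ _)) (fun e _ he => he) hN).trans ?_
    refine SimpleGraph.Adj.reachable ?_
    refine ⟨h2.1, ?_, ?_, h2.2.2.2⟩
    · exact BN_mono ((le_max_left _ _).trans (le_max_right _ _)) h1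
    · exact BN_mono ((le_max_right _ _).trans (le_max_right _ _)) h3

/-- shift of the levels -/
def lsh (n : ℤ) : Vt ≃ Vt where
  toFun x := (x.1 + n, x.2)
  invFun x := (x.1 - n, x.2)
  left_inv x := by simp
  right_inv x := by simp

theorem lsh_par (b : ℕ) (n : ℤ) (y : Vt) : lsh n (par b y) = par b (lsh n y) := by
  simp [lsh, par]
  ring

/-- [CONV] -/
theorem conv (hH : S_HAR) (hA : S_AUT) (hR : S_REIDX) (hM : S_MEAS) (hC : S_CHAIN) : S_CONV := by
  intro b hb p hp L hL hU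
  -- an infinite cluster with positive probability
  obtain ⟨x, hx⟩ : ∃ x : Vx, 0 < (PP Ed p hp).real {ω | (cl b ω (TW L) x).Infinite} := by
    by_contra hcon
    push Not at hcon
    have h0 : ∀ x, (PP Ed p hp) {ω | (cl b ω (TW L) x).Infinite} = 0 := by
      intro x
      have := le_antisymm (hcon x) measureReal_nonneg
      rwa [measureReal_eq_zero_iff] at this
    have h1 : (PP Ed p hp) (⋃ x, {ω | (cl b ω (TW L) x).Infinite}) = 0 := measure_iUnion_null h0
    have h2 : ∀ᵐ ω ∂(PP Ed p hp), ω ∈ (⋃ x, {ω | (cl b ω (TW L) x).Infinite}) := by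
      filter_upwards [hU] with ω hω
      obtain ⟨x, hx⟩ := hω.1
      exact Set.mem_iUnion.2 ⟨x, hx⟩
    have h3 : ∀ᵐ ω ∂(PP Ed p hp), ω ∉ (⋃ x, {ω | (cl b ω (TW L) x).Infinite}) :=
      measure_eq_zero_iff_ae_notMem.1 h1
    obtain ⟨ω, h4, h5⟩ := (h2.and h3).exists
    exact h5 h4
  obtain ⟨z, h⟩ := x
  set θ : ℝ := (PP Ed p hp).real {ω | (cl b ω (TW L) (z, h)).Infinite} with hθ
  -- the same for all tree vertices
  have hθz : ∀ w : Vt, (PP Ed p hp).real {ω | (cl b ω (TW L) (w, h)).Infinite} = θ := by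
    intro w
    obtain ⟨σ, hσ, hσw, -⟩ := hA b hb z w
    have h1 := P_inf_tr hR hM p hp hσ 0 (TW L) (z, h)
    have h2 : tr σ 0 '' TW L = TW L := by
      ext y
      constructor
      · rintro ⟨y', hy', rfl⟩
        change y'.2 + 0 ∈ L
        rw [add_zero]
        exact hy'
      · intro hy
        refine ⟨(tr σ 0).symm y, ?_, by simp⟩
        change y.2 - 0 ∈ L
        rw [sub_zero]
        exact hy
    have h3 : tr σ 0 (z, h) = (w, h) := by
      change (σ z, h + 0) = (w, h)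
      rw [hσw, add_zero]
    rw [h2, h3] at h1
    exact h1
  have hp0 : 0 < p := by
    rcases eq_or_lt_of_le (zero_le (a := p)) with h0 | h0
    · exfalso
      have h1 : ∀ e : Ed, (PP Ed p hp) {ω | ω e = true} = 0 := by
        intro e
        have h2 := all_open Ed p hp {e}
        have h3 : {ω : Cf | ω e = true} = {ω | ∀ e' ∈ ({e} : Finset Ed), ω e' = true} := by
          ext ω
          simp
        rw [← h3] at h2
        have h4 : (PP Ed p hp).real {ω | ω e = true} = 0 := by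
          rw [h2, ← h0]
          simp
        rwa [measureReal_eq_zero_iff] at h4
      have h5 : (PP Ed p hp) (⋃ e : Ed, {ω | ω e = true}) = 0 := measure_iUnion_null h1
      have h6 : {ω | (cl b ω (TW L) (z, h)).Infinite} ⊆ ⋃ e : Ed, {ω | ω e = true} := by
        intro ω hω
        by_contra hne
        apply hω
        refine (Set.finite_singleton (z, h)).subset ?_
        intro y hy
        have hy' : Relation.ReflTransGen (og b ω (TW L)).Adj (z, h) y :=
          (SimpleGraph.reachable_iff_reflTransGen _ _).1 hy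
        rcases Relation.ReflTransGen.cases_head hy' with h2 | ⟨u, h2, _⟩
        · exact h2.symm
        · exfalso
          obtain ⟨_, _, _, c, h3⟩ := h2
          apply hne
          rcases h3 with ⟨_, h3⟩ | ⟨_, h3⟩
          · exact Set.mem_iUnion.2 ⟨_, h3⟩
          · exact Set.mem_iUnion.2 ⟨_, h3⟩
      have h7 : (PP Ed p hp) {ω | (cl b ω (TW L) (z, h)).Infinite} = 0 :=
        measure_mono_null h6 h5
      rw [hθ, measureReal_def, h7] at hx
      simp at hx
    · exact h0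
  -- two point function
  have htau : ∀ w w' : Vt, θ ^ 2 ≤ (PP Ed p hp).real {ω | Cn b ω (TW L) (w, h) (w', h)} := by
    intro w w'
    have h1 := hH Ed p hp _ _ (hM b (TW L) (w, h) (w, h)).2 (hM b (TW L) (w', h) (w', h)).2
      (inc_clInf (TW L) (w, h)) (inc_clInf (TW L) (w', h))
    rw [hθz w, hθz w'] at h1
    have h2 : (PP Ed p hp).real ({ω | (cl b ω (TW L) (w, h)).Infinite} ∩
        {ω | (cl b ω (TW L) (w', h)).Infinite}) ≤
        (PP Ed p hp).real {ω | Cn b ω (TW L) (w, h) (w', h)} := by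
      rw [measureReal_def, measureReal_def]
      refine ENNReal.toReal_mono (measure_ne_top _ _) (measure_mono_ae ?_)
      filter_upwards [hU] with ω hω
      intro h3
      exact hω.2 _ _ h3.1 h3.2
    rw [pow_two]
    exact h1.trans h2
  -- choose `n`
  have hb1 : (1 : ℝ) < b := by exact_mod_cast (by omega : 1 < b)
  obtain ⟨n0, hn0⟩ := pow_unbounded_of_one_lt ((θ ^ 2 / 2) ^ 2)⁻¹ hb1
  set n : ℕ := n0 + 1 with hn
  have hθ4 : 0 < (θ ^ 2 / 2) ^ 2 := by positivity
  have hbn : 1 < (b : ℝ) ^ n * (θ ^ 2 / 2) ^ 2 := by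
    have h1 : (b : ℝ) ^ n0 ≤ (b : ℝ) ^ n := pow_le_pow_right₀ hb1.le (Nat.le_succ _)
    have h2 : ((θ ^ 2 / 2) ^ 2)⁻¹ < (b : ℝ) ^ n := hn0.trans_le h1
    have h3 := mul_lt_mul_of_pos_right h2 hθ4
    rwa [inv_mul_cancel₀ hθ4.ne'] at h3
  -- exhaustion
  set u : Vx := (((0 : ℤ), 0), h) with hu
  set v : Vx := (((n : ℤ), 0), h) with hv
  have hmono : Monotone (fun N : ℕ => {ω : Cf | Cn b ω (BN b N) u v}) := by
    intro N N' hNN ω hω
    exact Cn_mono (BN_mono hNN) (fun e _ he => he) hω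
  have hlim : Tendsto (fun N : ℕ => (PP Ed p hp).real {ω : Cf | Cn b ω (BN b N) u v}) atTop
      (nhds ((PP Ed p hp).real (⋃ N, {ω : Cf | Cn b ω (BN b N) u v}))) := by
    simp only [measureReal_def]
    exact (ENNReal.tendsto_toReal (measure_ne_top _ _)).comp
      (tendsto_measure_iUnion_atTop hmono)
  have hbig : θ ^ 2 ≤ (PP Ed p hp).real (⋃ N, {ω : Cf | Cn b ω (BN b N) u v}) := by
    refine (htau (0, 0) ((n : ℤ), 0)).trans (measureReal_mono ?_ (measure_ne_top _ _))
    intro ω hω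
    obtain ⟨N, hN⟩ := Cn_BN hb hω
    exact Set.mem_iUnion.2 ⟨N, hN⟩
  have hθ2 : 0 < θ ^ 2 := by positivity
  have hev : ∀ᶠ N : ℕ in atTop, θ ^ 2 / 2 < (PP Ed p hp).real {ω : Cf | Cn b ω (BN b N) u v} :=
    hlim (lt_mem_nhds (lt_of_lt_of_le (by linarith) hbig))
  obtain ⟨N, hN1, hN2⟩ := (hev.and (eventually_ge_atTop n)).exists
  -- translate
  have hT := P_Cn_tr hR hM p hp (lsh_par b N) (-h) (BN b N) u v
  rw [BN, tr_Blk (lsh_par b N)] at hT
  have e1 : tr (lsh N) (-h) u = (((N : ℤ), 0), 0) := by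
    simp [tr, lsh, hu]
  have e2 : tr (lsh N) (-h) v = ((((N + n : ℕ) : ℤ), 0), 0) := by
    simp [tr, lsh, hv, add_comm]
  rw [e1, e2] at hT
  have hsub : Blk b (2 * N) N (lsh N ((N : ℤ), 0)) (0 + -h) ⊆
      Blk b (2 * N) (N + h.natAbs) (((2 * N : ℕ) : ℤ), 0) 0 := by
    rintro y ⟨⟨j, hj, hy⟩, h1, h2⟩
    refine ⟨⟨j, hj, ?_⟩, ?_, ?_⟩
    · rw [hy]
      simp only [lsh, Equiv.coe_fn_mk]
      ext1
      · simp only
        push_cast
        ring
      · rfl
    · push_cast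
      have := neg_abs_le h
      have := le_abs_self h
      linarith
    · push_cast
      have := neg_abs_le h
      have := le_abs_self h
      linarith
  have hfin : θ ^ 2 / 2 < (PP Ed p hp).real {ω : Cf | Cn b ω
      (Blk b (2 * N) (N + h.natAbs) (((2 * N : ℕ) : ℤ), 0) 0)
      (((N : ℤ), 0), 0) ((((N + n : ℕ) : ℤ), 0), 0)} := by
    refine lt_of_lt_of_le hN1 ?_
    rw [BN, ← hT]
    exact measureReal_mono (fun ω hω => Cn_mono hsub (fun e _ he => he) hω) (measure_ne_top _ _)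
  obtain ⟨K, hK⟩ := hC b hb p hp hp0 (2 * N) (N + h.natAbs) N n (by omega) (by omega) (by
    refine hbn.trans_le ?_
    refine mul_le_mul_of_nonneg_left ?_ (by positivity)
    exact pow_le_pow_left₀ (by positivity) hfin.le 2)
  exact ⟨K, _, hK⟩

end Pool.Agent.Helper56K9.CP
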