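import Pool.Agent.Helper98K9.CP.St2
import Pool.Agent.Helper98K9.CP.Basic
import Pool.Agent.Helper56K9.CP.Col

set_option autoImplicit false

/-! # [EX] every infinite cluster contains a good point -/

namespace Pool.Agent.Helper56K9.CP

open Pool.Agent.Helper98K9.CP MeasureTheory ProbabilityTheory Filter
open scoped ENNReal NNReal

theorem mem_Br {b : ℕ} (hb : 2 ≤ b) (y : Vt) {r : ℕ} (hr : y.1.natAbs + y.2 ≤ r) :
    y ∈ Br b r := by
  obtain ⟨k, m⟩ := y
  simp only at hr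
  refine ⟨((r : ℤ) - k).toNat, by omega, ?_⟩
  rw [iter_par]
  have h2 : m / b ^ ((r : ℤ) - k).toNat = 0 := by
    rw [Nat.div_eq_of_lt]
    calc m < 2 ^ m := Nat.lt_two_pow_self
      _ ≤ b ^ m := Nat.pow_le_pow_left hb _
      _ ≤ b ^ ((r : ℤ) - k).toNat := Nat.pow_le_pow_right (by omega) (by omega)
  simp only [h2]
  ext1
  · simp only
    omega
  · rfl

theorem Br_finite {b : ℕ} (hb : 1 ≤ b) (r : ℕ) : (Br b r).Finite := by
  refine Set.Finite.subset
    (Set.Finite.biUnion (Set.finite_Iic (2 * r)) fun j _ => desc_finite hb j ((r : ℤ), 0)) ?_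
  rintro y ⟨j, hj, hy⟩
  exact Set.mem_biUnion (Set.mem_Iic.2 hj) hy

theorem meas_toGood (hM : S_MEAS) (hN : S_NICE) (hG : S_NGOOD) {b : ℕ} (hb : 2 ≤ b) (K R : ℕ)
    (p : ℝ≥0) (hp : p ≤ 1) (a c m : ℝ) (L : Set ℤ) (x : Vx) :
    MeasurableSet {ω : Cf | ToGood b K R p hp a c m L x ω} := by
  have h1 : {ω : Cf | ToGood b K R p hp a c m L x ω} = ⋃ z : Vt, ⋃ j : ℤ,
      ({_ω : Cf | j * (2 * R + 1) - R ∈ L} ∩
        ((sh (j * (2 * R + 1))) ⁻¹' (Good p hp a (RelI b K R c m z)) ∩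
        {ω | Cn b ω (TW L) x (z, j * (2 * R + 1))})) := by
    ext ω
    simp only [ToGood, Set.mem_ofPred_eq, Set.mem_iUnion, Set.mem_inter_iff, Set.mem_preimage]
  rw [h1]
  refine MeasurableSet.iUnion fun z => MeasurableSet.iUnion fun j => ?_
  refine (MeasurableSet.const _).inter (MeasurableSet.inter ?_ (hM b _ _ _).1)
  exact meas_sh _ (hG p hp a _ _ (hN b hb K R c m z).2).1

/-- [EX] -/
theorem ex (hM : S_MEAS) (hN : S_NICE) (hG : S_NGOOD) (h1 : S_EX1) (h2 : S_EX2) (h3 : S_STRIP)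
    (hX : S_APX) : S_EX := by
  intro b hb K R p hp a c m hp0 hp1 ha hgood L hL x
  set I : Set Cf := {ω | (cl b ω (TW L) x).Infinite} with hI
  set T : Set Cf := {ω | ToGood b K R p hp a c m L x ω} with hT
  have hIm : MeasurableSet I := (hM b (TW L) x x).2
  have hTm : MeasurableSet T := meas_toGood hM hN hG hb K R p hp a c m L x
  have hE : {ω : Cf | (cl b ω (TW L) x).Infinite ∧ ¬ ToGood b K R p hp a c m L x ω} =
      I \ T := rfl
  rw [hE]
  set E : Set Cf := I \ T with hEdef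
  have hEm : MeasurableSet E := hIm.diff hTm
  set κ : ℝ := (p : ℝ) ^ (3 * R + 3) * a with hκ
  have hκ0 : 0 < κ := mul_pos (pow_pos (NNReal.coe_pos.2 hp0) _) ha
  refine le_antisymm ?_ measureReal_nonneg
  -- the key estimate
  have key : ∀ ε : ℝ, 0 < ε → κ * ((PP Ed p hp).real E - ε) ≤ ε := by
    intro ε hε
    obtain ⟨D, A, hDA, hAm, hA1, hA2⟩ := hX Ed p hp E hEm ε hε
    -- choose r
    obtain ⟨r, hr1, hr2⟩ : ∃ r : ℕ, x.1.1.natAbs + x.1.2 ≤ r ∧
        ∀ e ∈ D, e.1.1.1.natAbs + e.1.1.2 ≤ r := by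
      refine ⟨max (x.1.1.natAbs + x.1.2) (D.sup fun e => e.1.1.1.natAbs + e.1.1.2),
        le_max_left _ _, fun e he => ?_⟩
      exact (Finset.le_sup (f := fun e : Ed => e.1.1.1.natAbs + e.1.1.2) he).trans
        (le_max_right _ _)
    have hxr : x.1 ∈ Br b r := mem_Br hb x.1 hr1
    have hAdep : Dep (Er b r) A := by
      intro ω ω' h4 h5
      exact hDA ω ω' (fun e he => h4 e (Or.inl (mem_Br hb _ (hr2 e he)))) h5
    have h6 := h1 b hb K R p hp a c m hp0 ha hgood L hL r x hxr A hAm hAdep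
    -- exits
    have h7 : (PP Ed p hp).real E - ε ≤ (PP Ed p hp).real (A ∩ {ω | Exits b r L x ω}) := by
      have h8 : (PP Ed p hp).real {ω | (cl b ω {y : Vx | y.1 ∈ Br b r} x).Infinite} = 0 :=
        h3 b p hp hp1 (Br b r) (Br_finite (by omega) r) x
      have h9 : E ⊆ (E \ A) ∪ ((A ∩ {ω | Exits b r L x ω}) ∪
          {ω | (cl b ω {y : Vx | y.1 ∈ Br b r} x).Infinite}) := by
        intro ω hω
        by_cases hA : ω ∈ A
        · by_cases hs : (cl b ω {y : Vx | y.1 ∈ Br b r} x).Infinite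
          · exact Or.inr (Or.inr hs)
          · exact Or.inr (Or.inl ⟨hA, h2 b r L x ω hxr hω.1 hs⟩)
        · exact Or.inl ⟨hω, hA⟩
      have h10 := measureReal_mono (μ := PP Ed p hp) h9 (measure_ne_top _ _)
      have h11 := measureReal_union_le (μ := PP Ed p hp) (E \ A)
        ((A ∩ {ω | Exits b r L x ω}) ∪ {ω | (cl b ω {y : Vx | y.1 ∈ Br b r} x).Infinite})
      have h12 := measureReal_union_le (μ := PP Ed p hp) (A ∩ {ω | Exits b r L x ω})
        {ω | (cl b ω {y : Vx | y.1 ∈ Br b r} x).Infinite}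
      linarith
    have h13 : (PP Ed p hp).real (A ∩ T) ≤ ε := by
      refine (measureReal_mono ?_ (measure_ne_top _ _)).trans hA2
      rintro ω ⟨h14, h15⟩
      exact ⟨h14, fun h16 => h16.2 h15⟩
    calc κ * ((PP Ed p hp).real E - ε)
        ≤ κ * (PP Ed p hp).real (A ∩ {ω | Exits b r L x ω}) :=
          mul_le_mul_of_nonneg_left h7 hκ0.le
      _ ≤ (PP Ed p hp).real (A ∩ T) := h6
      _ ≤ ε := h13
  by_contra hcon
  push Not at hcon
  set e : ℝ := (PP Ed p hp).real E with he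
  have h4 := key (min (e / 2) (κ * e / 4)) (lt_min (by positivity) (by positivity))
  have h5 : e / 2 ≤ e - min (e / 2) (κ * e / 4) := by
    have := min_le_left (e / 2) (κ * e / 4)
    linarith
  have h6 : κ * (e / 2) ≤ κ * e / 4 :=
    (mul_le_mul_of_nonneg_left h5 hκ0.le).trans (h4.trans (min_le_right _ _))
  have h7 : 0 < κ * e := mul_pos hκ0 hcon
  linarith

end Pool.Agent.Helper56K9.CP
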