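import Pool.Agent.Helper98K9.CP.St2
import Pool.Agent.Helper98K9.CP.Basic

set_option autoImplicit false

/-! # [G3] all good points are connected -/

namespace Pool.Agent.Helper56K9.CP

open Pool.Agent.Helper98K9.CP MeasureTheory ProbabilityTheory Filter
open scoped ENNReal NNReal

theorem common_anc {b : ℕ} (hb : 2 ≤ b) (z z' : Vt) :
    ∃ n n' : ℕ, (par b)^[n] z = (par b)^[n'] z' := by
  have key : ∀ z : Vt, ∀ N : ℤ, z.1 + z.2 ≤ N → (par b)^[(N - z.1).toNat] z = (N, 0) := by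
    intro z N hN
    rw [iter_par]
    have h2 : z.2 / b ^ (N - z.1).toNat = 0 := by
      rw [Nat.div_eq_of_lt]
      calc z.2 < 2 ^ z.2 := Nat.lt_two_pow_self
        _ ≤ b ^ z.2 := Nat.pow_le_pow_left hb _
        _ ≤ b ^ (N - z.1).toNat := Nat.pow_le_pow_right (by omega) (by omega)
    rw [h2]
    ext1
    · simp only
      omega
    · rfl
  exact ⟨_, _, (key z (max (z.1 + z.2) (z'.1 + z'.2)) (le_max_left _ _)).trans
    (key z' (max (z.1 + z.2) (z'.1 + z'.2)) (le_max_right _ _)).symm⟩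

/-- [G3] -/
theorem g3 (h1 : S_G1) (h2 : S_G2) : S_G3 := by
  intro b hb K R p hp a c m hp0 ha ha1 hc hm hgood L hL
  rw [measureReal_eq_zero_iff (measure_ne_top _ _), measure_eq_zero_iff_ae_notMem]
  have hup : ∀ s t : ℤ, s ∈ L → s ≤ t → t ∈ L := by
    intro s t hs hst
    rcases hL with rfl | rfl
    · exact Set.mem_univ _
    · exact Set.mem_Ici.2 (le_trans (Set.mem_Ici.1 hs) hst)
  have hpos : ∀ t : ℤ, 0 ≤ t → t ∈ L := by
    intro t ht
    rcases hL with rfl | rfl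
    · exact Set.mem_univ _
    · exact Set.mem_Ici.2 ht
  have hG1 : ∀ᵐ ω ∂(PP Ed p hp), ∀ (z : Vt) (j j' : ℤ), j < j' →
      ¬ (sh (j * (2 * R + 1)) ω ∈ Good p hp a (RelI b K R c m z) ∧
      sh (j' * (2 * R + 1)) ω ∈ Good p hp a (RelI b K R c m z) ∧
      ¬ Cn b ω {y : Vx | j * (2 * R + 1) - R ≤ y.2}
        (z, j * (2 * R + 1)) (z, j' * (2 * R + 1))) := by
    rw [ae_all_iff]
    intro z
    rw [ae_all_iff]
    intro j
    rw [ae_all_iff]
    intro j'
    by_cases hj : j < j'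
    · have h3 := h1 b hb K R p hp a c m hp0 ha ha1 hc hm z j j' hj
      rw [measureReal_eq_zero_iff (measure_ne_top _ _), measure_eq_zero_iff_ae_notMem] at h3
      filter_upwards [h3] with ω hω _
      exact hω
    · exact Eventually.of_forall fun ω h => absurd h hj
  have hG2 : ∀ᵐ ω ∂(PP Ed p hp), ∀ (z : Vt), ∃ j : ℕ, 1 ≤ j ∧
      sh (j * (2 * R + 1)) ω ∈ Good p hp a (RelI b K R c m z) ∧
      sh (j * (2 * R + 1)) ω ∈ Good p hp a (RelI b K R c m (par b z)) ∧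
      ω ((z, j * (2 * R + 1)), false) = true := by
    rw [ae_all_iff]
    intro z
    have h3 := h2 b hb K R p hp a c m hp0 ha z (hgood z) (hgood (par b z))
    rw [measureReal_eq_zero_iff (measure_ne_top _ _), measure_eq_zero_iff_ae_notMem] at h3
    filter_upwards [h3] with ω hω
    exact not_not.1 hω
  filter_upwards [hG1, hG2] with ω hA hB
  rintro ⟨z, z', j, j', hj, hj', hg, hg', hn⟩
  apply hn
  -- good heights
  set G : Vt → Set ℤ := fun z => {j | j * (2 * R + 1) - R ∈ L ∧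
    sh (j * (2 * R + 1)) ω ∈ Good p hp a (RelI b K R c m z)} with hGdef
  have hlt : ∀ (z : Vt) (j j' : ℤ), j ∈ G z → j' ∈ G z → j < j' →
      Cn b ω (TW L) (z, j * (2 * R + 1)) (z, j' * (2 * R + 1)) := by
    intro z j j' h3 h4 h5
    have h6 := hA z j j' h5
    have h7 : Cn b ω {y : Vx | j * (2 * R + 1) - R ≤ y.2}
        (z, j * (2 * R + 1)) (z, j' * (2 * R + 1)) := by
      by_contra h8
      exact h6 ⟨h3.2, h4.2, h8⟩
    exact h7.mono (fun y hy => hup _ _ h3.1 hy) (fun e _ he => he)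
  have A : ∀ (z : Vt) (j j' : ℤ), j ∈ G z → j' ∈ G z →
      Cn b ω (TW L) (z, j * (2 * R + 1)) (z, j' * (2 * R + 1)) := by
    intro z j j' h3 h4
    rcases lt_trichotomy j j' with h5 | rfl | h5
    · exact hlt z j j' h3 h4 h5
    · exact Cn.refl _ _ _
    · exact (hlt z j' j h4 h3 h5).symm
  have B : ∀ z : Vt, ∃ i : ℤ, i ∈ G z ∧ i ∈ G (par b z) ∧
      Cn b ω (TW L) (z, i * (2 * R + 1)) (par b z, i * (2 * R + 1)) := by
    intro z
    obtain ⟨i, hi, h3, h4, h5⟩ := hB z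
    have hi0 : (1 : ℤ) ≤ (i : ℤ) := by exact_mod_cast hi
    have hR0 : (0 : ℤ) ≤ (R : ℤ) := Int.natCast_nonneg R
    have hiL : (i : ℤ) * (2 * R + 1) - R ∈ L := hpos _ (by nlinarith)
    have hiL' : (i : ℤ) * (2 * R + 1) ∈ L := hpos _ (by nlinarith)
    refine ⟨i, ⟨hiL, h3⟩, ⟨hiL, h4⟩, ?_⟩
    exact Cn.edge (b := b) (e := ((z, (i : ℤ) * (2 * R + 1)), false)) ⟨hiL', hiL'⟩ h5
  have C : ∀ (n : ℕ) (z : Vt) (j j' : ℤ), j ∈ G z → j' ∈ G ((par b)^[n] z) →
      Cn b ω (TW L) (z, j * (2 * R + 1)) ((par b)^[n] z, j' * (2 * R + 1)) := by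
    intro n
    induction n with
    | zero => exact fun z j j' h3 h4 => A z j j' h3 h4
    | succ n ih =>
      intro z j j' h3 h4
      rw [Function.iterate_succ_apply] at h4 ⊢
      obtain ⟨i, h5, h6, h7⟩ := B z
      exact ((A z j i h3 h5).trans h7).trans (ih (par b z) i j' h6 h4)
  obtain ⟨n, n', hnn⟩ := common_anc hb z z'
  obtain ⟨i, hi, -, -⟩ := B ((par b)^[n] z)
  have hi' : i ∈ G ((par b)^[n'] z') := by rw [← hnn]; exact hi
  have h3 := C n z j i ⟨hj, hg⟩ hi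
  have h4 := C n' z' j' i ⟨hj', hg'⟩ hi'
  rw [hnn] at h3
  exact h3.trans h4.symm

end Pool.Agent.Helper56K9.CP
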