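import Pool.Agent.Helper56K9.CP.Base

set_option autoImplicit false

/-! # [MUC] the condition `1 < μ` is open -/

namespace Pool.Agent.Helper56K9.CP

open Pool.Agent.Helper98K9.CP MeasureTheory ProbabilityTheory
open scoped ENNReal NNReal

/-- [MUC] -/
theorem muc (hc : S_CONT) : S_MUC := by
  intro b K R
  rcases Nat.eq_zero_or_pos b with rfl | hb
  · have : (fun p : {p : ℝ≥0 // p ≤ 1} => mu 0 K R p.1 p.2) = fun _ => 0 := by
      funext p
      simp [mu]
    rw [this]
    exact continuous_const
  · have h1 : Continuous (fun p : {p : ℝ≥0 // p ≤ 1} => piKR b K R p.1 p.2) := by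
      have hfin : (edg b (Blk b K R ((K : ℤ), 0) 0)).Finite := edg_finite (Blk_finite hb K R _ _)
      refine hc Ed hfin.toFinset _ ?_
      rw [Set.Finite.coe_toFinset]
      exact Cn_dep b _ _ _
    have h2 : Continuous (fun p : {p : ℝ≥0 // p ≤ 1} => ((p.1 : ℝ≥0) : ℝ)) :=
      NNReal.continuous_coe.comp continuous_subtype_val
    exact continuous_const.mul ((h2.mul h1).pow 2)

end Pool.Agent.Helper56K9.CP
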