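import Pool.Agent.Helper98K9.CP.St2
import Pool.Agent.Helper98K9.CP.Basic
import Pool.Agent.Helper56K9.CP.Base

set_option autoImplicit false

/-! # [ONE] all edges are open -/

namespace Pool.Agent.Helper56K9.CP

open Pool.Agent.Helper98K9.CP MeasureTheory ProbabilityTheory
open scoped ENNReal NNReal

theorem ae_open : ∀ᵐ ω ∂(PP Ed 1 le_rfl), ∀ e : Ed, ω e = true := by
  rw [ae_all_iff]
  intro e
  have h1 := all_open Ed 1 le_rfl {e}
  have h2 : (PP Ed 1 le_rfl).real {ω | ω e = true} = 1 := by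
    have : {ω : Cf | ω e = true} = {ω | ∀ e' ∈ ({e} : Finset Ed), ω e' = true} := by
      ext ω
      simp
    rw [this, h1]
    simp
  have h3 : MeasurableSet {ω : Cf | ω e = true} :=
    measurableSet_eq_fun (measurable_pi_apply e) measurable_const
  have h4 := probReal_compl_eq_one_sub h3 (μ := PP Ed 1 le_rfl)
  rw [h2, sub_self, measureReal_eq_zero_iff] at h4
  exact h4

/-- tree path -/
theorem conn_tree {b : ℕ} {L : Set ℤ} {ω : Cf} (hω : ∀ e, ω e = true) (z : Vt) {h : ℤ}
    (hh : h ∈ L) (j : ℕ) : Cn b ω (TW L) (z, h) ((par b)^[j] z, h) := by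
  induction j with
  | zero => exact Cn.refl _ _ _
  | succ j ih =>
    rw [Function.iterate_succ_apply']
    refine ih.trans ?_
    exact Cn.edge (b := b) (e := (((par b)^[j] z, h), false)) ⟨hh, hh⟩ (hω _)

/-- vertical path -/
theorem conn_vert {b : ℕ} {L : Set ℤ} (hL : L = Set.univ ∨ L = Set.Ici 0) {ω : Cf}
    (hω : ∀ e, ω e = true) (z : Vt) {h : ℤ} (hh : h ∈ L) (n : ℕ) :
    Cn b ω (TW L) (z, h) (z, h + n) := by
  have hup : ∀ t : ℕ, h + t ∈ L := by
    intro t
    rcases hL with rfl | rfl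
    · exact Set.mem_univ _
    · rw [Set.mem_Ici] at hh ⊢
      omega
  induction n with
  | zero => simpa using Cn.refl ω (TW L) (z, h)
  | succ n ih =>
    refine ih.trans ?_
    have h1 : hd b ((z, h + n), true) = (z, h + ((n + 1 : ℕ) : ℤ)) := by
      simp [hd, add_assoc]
    rw [← h1]
    refine Cn.edge (b := b) (e := ((z, h + n), true)) ⟨hup n, ?_⟩ (hω _)
    rw [h1]
    exact hup (n + 1)

theorem conn_all {b : ℕ} (hb : 2 ≤ b) {L : Set ℤ} (hL : L = Set.univ ∨ L = Set.Ici 0) {ω : Cf}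
    (hω : ∀ e, ω e = true) {x y : Vx} (hx : x ∈ TW L) (hy : y ∈ TW L) : Cn b ω (TW L) x y := by
  -- connect `x` to `((N, 0), height)` for all large `N`
  have key : ∀ z : Vt, ∀ N : ℤ, z.1 + z.2 ≤ N → ∀ h : ℤ, h ∈ L →
      Cn b ω (TW L) (z, h) ((N, 0), h) := by
    intro z N hN h hh
    have h1 := conn_tree (b := b) (L := L) hω z hh (N - z.1).toNat
    rw [par_iter] at h1
    have h2 : z.2 / b ^ (N - z.1).toNat = 0 := by
      rw [Nat.div_eq_of_lt]
      calc z.2 < 2 ^ z.2 := Nat.lt_two_pow_self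
        _ ≤ b ^ z.2 := Nat.pow_le_pow_left hb _
        _ ≤ b ^ (N - z.1).toNat := Nat.pow_le_pow_right (by omega) (by omega)
    rw [h2] at h1
    have h3 : z.1 + ((N - z.1).toNat : ℤ) = N := by omega
    rw [h3] at h1
    exact h1
  have key2 : ∀ (z : Vt) (h h' : ℤ), h ∈ L → h' ∈ L → Cn b ω (TW L) (z, h) (z, h') := by
    intro z h h' hh hh'
    rcases le_total h h' with hle | hle
    · have := conn_vert (b := b) hL hω z hh (h' - h).toNat
      have h3 : h + ((h' - h).toNat : ℤ) = h' := by omega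
      rwa [h3] at this
    · have := conn_vert (b := b) hL hω z hh' (h - h').toNat
      have h3 : h' + ((h - h').toNat : ℤ) = h := by omega
      rw [h3] at this
      exact this.symm
  obtain ⟨z, h⟩ := x
  obtain ⟨z', h'⟩ := y
  set N : ℤ := max (z.1 + z.2) (z'.1 + z'.2) with hN
  exact ((key z N (le_max_left _ _) h hx).trans (key2 (N, 0) h h' hx hy)).trans
    (key z' N (le_max_right _ _) h' hy).symm

/-- [ONE] -/
theorem one : S_ONE := by
  intro b hb L hL
  have h0 : (0 : ℤ) ∈ L := by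
    rcases hL with rfl | rfl
    · exact Set.mem_univ _
    · exact Set.mem_Ici.2 le_rfl
  unfold Uniq
  filter_upwards [ae_open] with ω hω
  have hTW : ∀ x, (cl b ω (TW L) x).Infinite → x ∈ TW L := by
    intro x hx
    by_contra hk
    apply hx
    refine (Set.finite_singleton x).subset ?_
    intro y hy
    have hy' : Relation.ReflTransGen (og b ω (TW L)).Adj x y :=
      (SimpleGraph.reachable_iff_reflTransGen _ _).1 hy
    rcases Relation.ReflTransGen.cases_head hy' with h2 | ⟨z, h2, _⟩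
    · exact h2.symm
    · exact absurd h2.2.1 hk
  refine ⟨⟨((0, 0), 0), ?_⟩, ?_⟩
  · have hinj : Function.Injective (fun m : ℕ => ((((0 : ℤ), m), (0 : ℤ)) : Vx)) := by
      intro m m' hm
      simpa using hm
    refine Set.Infinite.mono ?_ (Set.infinite_range_of_injective hinj)
    rintro _ ⟨m, rfl⟩
    exact conn_all hb hL hω h0 h0
  · intro x y hx hy
    exact conn_all hb hL hω (hTW x hx) (hTW y hy)

end Pool.Agent.Helper56K9.CP
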