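import Pool.Agent.Helper98K9.CP.St2

set_option autoImplicit false

/-! # [SUM] -/

namespace Pool.Agent.Helper56K9.CP

open Pool.Agent.Helper98K9.CP MeasureTheory ProbabilityTheory
open scoped ENNReal NNReal

theorem sum1 {r : ℝ} (h0 : 0 ≤ r) (h1 : r < 1) :
    Summable (fun n : ℕ => (n : ℝ) ^ 2 * r ^ (n - 2)) := by
  have hn : ‖r‖ < 1 := by rwa [Real.norm_of_nonneg h0]
  have s2 := summable_pow_mul_geometric_of_norm_lt_one 2 hn
  have s1 := summable_pow_mul_geometric_of_norm_lt_one 1 hn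
  have s0 := summable_pow_mul_geometric_of_norm_lt_one 0 hn
  rw [← summable_nat_add_iff 2]
  refine ((s2.add (s1.mul_left 4)).add (s0.mul_left 4)).congr fun n => ?_
  rw [Nat.add_sub_cancel]
  push_cast
  ring

/-- [SUM] -/
theorem sum : S_SUM := by
  intro a c m P H ha ha1 hc hm hP hP1 hH
  have hPH : 0 < P ^ H := pow_pos hP H
  obtain ⟨M0, hM0⟩ := pow_unbounded_of_one_lt (2 / P ^ H) hm
  have hM : 2 ≤ m ^ (M0 + 1) * P ^ H := by
    have h1 : m ^ M0 ≤ m ^ (M0 + 1) := pow_le_pow_right₀ hm.le (Nat.le_succ _)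
    have h2 : 2 / P ^ H ≤ m ^ (M0 + 1) := hM0.le.trans h1
    rwa [div_le_iff₀ hPH] at h2
  refine ⟨M0 + 1, by omega, fun q hq hq1 => ?_⟩
  have hr0 : 0 ≤ 1 - a ^ 2 := by nlinarith
  have hr1 : 1 - a ^ 2 < 1 := by nlinarith
  refine ((sum1 hr0 hr1).add ?_).add (summable_geometric_of_lt_one (by linarith) (by linarith))
  have he : ‖Real.exp (-c)‖ < 1 := by
    rw [Real.norm_of_nonneg (Real.exp_pos _).le]
    exact Real.exp_lt_one_iff.2 (by linarith)
  refine Summable.of_nonneg_of_le ?_ ?_ (summable_pow_mul_geometric_of_norm_lt_one 2 he)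
  · intro n
    have : P ^ (n * H) ≤ 1 := pow_le_one₀ hP.le hP1
    exact mul_nonneg (by positivity) (pow_nonneg (by linarith) _)
  · intro n
    refine mul_le_mul_of_nonneg_left ?_ (by positivity)
    set x : ℝ := P ^ (n * H) with hx
    have hx0 : 0 < x := pow_pos hP _
    have hx1 : x ≤ 1 := pow_le_one₀ hP.le hP1
    set N : ℕ := ⌈c * m ^ ((M0 + 1) * n)⌉₊ with hN
    have hN1 : c * m ^ ((M0 + 1) * n) ≤ N := Nat.le_ceil _
    have h1 : (1 - x) ^ N ≤ Real.exp (-(x * N)) := by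
      have h2 : 1 - x ≤ Real.exp (-x) := by
        have := Real.add_one_le_exp (-x)
        linarith
      calc (1 - x) ^ N ≤ (Real.exp (-x)) ^ N := pow_le_pow_left₀ (by linarith) h2 N
        _ = Real.exp (-(x * N)) := by
          rw [← Real.exp_nat_mul]
          congr 1
          ring
    refine h1.trans ?_
    rw [← Real.exp_nat_mul]
    refine Real.exp_le_exp.2 ?_
    have h3 : (n : ℝ) ≤ 2 ^ n := by
      have : n < 2 ^ n := Nat.lt_two_pow_self
      exact_mod_cast this.le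
    have h4 : (2 : ℝ) ^ n ≤ (m ^ (M0 + 1) * P ^ H) ^ n := pow_le_pow_left₀ (by norm_num) hM n
    have h5 : (m ^ (M0 + 1) * P ^ H) ^ n = m ^ ((M0 + 1) * n) * x := by
      rw [mul_pow, ← pow_mul, ← pow_mul, hx, mul_comm H n]
    have h6 : c * n ≤ x * N := by
      calc c * n ≤ c * (m ^ ((M0 + 1) * n) * x) := by
            refine mul_le_mul_of_nonneg_left ?_ hc.le
            rw [← h5]
            exact h3.trans h4
        _ = x * (c * m ^ ((M0 + 1) * n)) := by ring
        _ ≤ x * N := mul_le_mul_of_nonneg_left hN1 hx0.le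
    nlinarith [h6]

end Pool.Agent.Helper56K9.CP
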